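import Pool.Agent.X143.SD.Stm

set_option autoImplicit false

namespace Pool.Agent.X269.SD

open Set Filter Topology Pool.Agent.X143.SD

theorem cc_nonneg {s : ℝ} (hs : 0 ≤ s) : 0 ≤ cc s := by
  unfold cc
  have h := Real.add_one_le_exp s
  have h2 := mul_le_mul_of_nonneg_right h (Real.exp_pos (-s)).le
  rw [← Real.exp_add, add_neg_cancel, Real.exp_zero] at h2
  linarith

theorem cc_lt_one {s : ℝ} (hs : 0 ≤ s) : cc s < 1 := by
  unfold cc
  have : 0 < (1 + s) * Real.exp (-s) := by positivity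
  linarith

theorem exp_deriv (s : ℝ) : HasDerivAt (fun s : ℝ => Real.exp (-s)) (-Real.exp (-s)) s := by
  have := (hasDerivAt_neg s).exp
  simpa using this

theorem cc_deriv (s : ℝ) : HasDerivAt cc (s * Real.exp (-s)) s := by
  have h2 := ((((hasDerivAt_id s).const_add 1).mul (exp_deriv s)).const_sub 1)
  have h3 : -(1 * Real.exp (-s) + (1 + id s) * -Real.exp (-s)) = s * Real.exp (-s) := by
    simp only [id]; ring
  rw [h3] at h2
  exact h2

theorem cc_cont : Continuous cc := by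
  unfold cc
  fun_prop

theorem cc_mono {s t : ℝ} (hs : 0 ≤ s) (hst : s ≤ t) : cc s ≤ cc t := by
  have h : MonotoneOn cc (Ici 0) := by
    refine monotoneOn_of_deriv_nonneg (convex_Ici 0) cc_cont.continuousOn ?_ ?_
    · exact fun x _ => (cc_deriv x).differentiableAt.differentiableWithinAt
    · intro x hx
      rw [interior_Ici] at hx
      rw [(cc_deriv x).deriv]
      have : 0 < x := hx
      positivity
  exact h hs (hs.trans hst) hst

theorem PP_ge {l : ℕ} (hl : 1 ≤ l) {x : ℝ} (hx : 0 ≤ x) : 1 ≤ PP l x := by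
  unfold PP
  have := Finset.single_le_sum (f := fun j => x ^ j) (s := Finset.range l)
    (fun i _ => by positivity) (Finset.mem_range.2 (show 0 < l by omega))
  simpa using this

theorem PP_le {l : ℕ} {x : ℝ} (hx : 0 ≤ x) (hx1 : x ≤ 1) : PP l x ≤ l := by
  unfold PP
  calc ∑ j ∈ Finset.range l, x ^ j ≤ ∑ j ∈ Finset.range l, (1 : ℝ) :=
        Finset.sum_le_sum (fun j _ => pow_le_one₀ hx hx1)
    _ = l := by simp

theorem inv_PP {l : ℕ} (hl : 1 ≤ l) {x : ℝ} (hx : 0 ≤ x) (hx1 : x < 1) :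
    1 / PP l x = (1 - x) + (1 - x) * x ^ l / (1 - x ^ l) := by
  have h1 : PP l x * (1 - x) = 1 - x ^ l := by
    unfold PP
    exact geom_sum_mul_neg x l
  have h2 : x ^ l < 1 := pow_lt_one₀ hx hx1 (by omega)
  have h3 : 0 < PP l x := lt_of_lt_of_le one_pos (PP_ge hl hx)
  have h4 : 1 - x ^ l ≠ 0 := by linarith
  rw [div_eq_iff h3.ne', add_mul, div_mul_eq_mul_div, eq_comm, ← eq_sub_iff_add_eq', div_eq_iff h4]
  have h5 : (1 - x) * PP l x = 1 - x ^ l := by rw [mul_comm]; exact h1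
  calc (1 - x) * x ^ l * PP l x = ((1 - x) * PP l x) * x ^ l := by ring
    _ = (1 - ((1 - x) * PP l x)) * (1 - x ^ l) := by rw [h5]; ring

/-- The comparison function. -/
noncomputable def W (l : ℕ) (c η s : ℝ) : ℝ :=
  2 - (2 + s) * Real.exp (-s) + c * (-Real.log (1 - cc s ^ l) / l) + s * η

noncomputable def W' (l : ℕ) (c η s : ℝ) : ℝ :=
  (1 + s) * Real.exp (-s) + c * (cc s ^ (l - 1) * (s * Real.exp (-s)) / (1 - cc s ^ l)) + η

theorem W_deriv {l : ℕ} (hl : 1 ≤ l) (c η : ℝ) {s : ℝ} (hs : 0 ≤ s) :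
    HasDerivAt (W l c η) (W' l c η s) s := by
  have h2 : cc s ^ l < 1 := pow_lt_one₀ (cc_nonneg hs) (cc_lt_one hs) (by omega)
  have h4 : 1 - cc s ^ l ≠ 0 := by linarith
  have hl0 : (l : ℝ) ≠ 0 := by
    have : (1 : ℝ) ≤ l := by exact_mod_cast hl
    linarith
  have ha := (((hasDerivAt_id s).const_add 2).mul (exp_deriv s)).const_sub 2
  have hb := (((((cc_deriv s).pow l).const_sub 1).log h4).neg.div_const (l : ℝ)).const_mul c
  have hc := (hasDerivAt_id s).mul_const η
  have hd := (ha.add hb).add hc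
  have he : -(1 * Real.exp (-s) + (2 + id s) * -Real.exp (-s)) +
      c * (-(-((l : ℝ) * cc s ^ (l - 1) * (s * Real.exp (-s))) / (1 - cc s ^ l)) / (l : ℝ)) + 1 * η
      = W' l c η s := by
    unfold W'
    simp only [id]
    field_simp
    ring
  exact HasDerivAt.congr_deriv hd he

theorem W'_cont {l : ℕ} (hl : 1 ≤ l) (c η u : ℝ) : ContinuousOn (W' l c η) (Icc 0 u) := by
  unfold W'
  have h0 := cc_cont
  refine ContinuousOn.add (ContinuousOn.add (by fun_prop) ?_) continuousOn_const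
  refine continuousOn_const.mul (ContinuousOn.div (by fun_prop) (by fun_prop) ?_)
  intro s hs
  have h2 : cc s ^ l < 1 := pow_lt_one₀ (cc_nonneg hs.1) (cc_lt_one hs.1) (by omega)
  linarith

theorem f_cont {l : ℕ} (hl : 1 ≤ l) (u : ℝ) :
    ContinuousOn (fun s => 1 / PP l (cc s)) (Icc 0 u) := by
  have h0 := cc_cont
  have h1 : Continuous (fun s => PP l (cc s)) := by
    unfold PP
    fun_prop
  refine continuousOn_const.div h1.continuousOn ?_
  intro s hs
  have := PP_ge hl (cc_nonneg hs.1)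
  linarith

theorem f_le {l : ℕ} (hl : 1 ≤ l) {k : ℝ} (hk : 0 < k) {s : ℝ} (hs : 0 ≤ s) :
    1 / PP l (cc s) ≤ W' l (1 + 1 / k) (cc k ^ l / (1 - cc k ^ l)) s := by
  rw [inv_PP hl (cc_nonneg hs) (cc_lt_one hs)]
  have hB : 1 - cc s = (1 + s) * Real.exp (-s) := by unfold cc; ring
  have h0 := cc_nonneg hs
  have h1 := cc_lt_one hs
  have hk0 := cc_nonneg hk.le
  have h2 : cc s ^ l < 1 := pow_lt_one₀ h0 h1 (by omega)
  have h2k : cc k ^ l < 1 := pow_lt_one₀ hk0 (cc_lt_one hk.le) (by omega)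
  have hη : 0 ≤ cc k ^ l / (1 - cc k ^ l) :=
    div_nonneg (pow_nonneg hk0 _) (by linarith)
  have hc : 0 ≤ 1 + 1 / k := by positivity
  unfold W'
  rw [← hB]
  have hq : 0 ≤ cc s ^ (l - 1) * (s * Real.exp (-s)) / (1 - cc s ^ l) :=
    div_nonneg (by positivity) (by linarith)
  rcases le_total s k with h | h
  · have h3 : cc s ≤ cc k := cc_mono hs h
    have h4 : cc s ^ l / (1 - cc s ^ l) ≤ cc k ^ l / (1 - cc k ^ l) := by
      have h5 : cc s ^ l ≤ cc k ^ l := pow_le_pow_left₀ h0 h3 l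
      rw [div_le_div_iff₀ (by linarith) (by linarith)]
      nlinarith
    have h6 : (1 - cc s) * cc s ^ l / (1 - cc s ^ l) ≤ cc s ^ l / (1 - cc s ^ l) := by
      rw [mul_div_assoc]
      exact mul_le_of_le_one_left (div_nonneg (pow_nonneg h0 _) (by linarith)) (by linarith)
    have h7 := mul_nonneg hc hq
    linarith
  · have h3 : (1 - cc s) ≤ (1 + 1 / k) * (s * Real.exp (-s)) := by
      rw [hB]
      have h4 : 1 + s ≤ (1 + 1 / k) * s := by
        have : 1 ≤ s / k := by rw [le_div_iff₀ hk]; linarith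
        have h5 : (1 + 1 / k) * s = s + s / k := by ring
        linarith
      have := mul_le_mul_of_nonneg_right h4 (Real.exp_pos (-s)).le
      linarith
    have h4 : cc s ^ l ≤ cc s ^ (l - 1) := pow_le_pow_of_le_one h0 h1.le (by omega)
    have h5 : (1 - cc s) * cc s ^ l / (1 - cc s ^ l) ≤
        (1 + 1 / k) * (cc s ^ (l - 1) * (s * Real.exp (-s)) / (1 - cc s ^ l)) := by
      rw [← mul_div_assoc]
      refine div_le_div_of_nonneg_right ?_ (by linarith)
      calc (1 - cc s) * cc s ^ l ≤ ((1 + 1 / k) * (s * Real.exp (-s))) * cc s ^ (l - 1) :=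
            mul_le_mul h3 h4 (by positivity) (by positivity)
        _ = _ := by ring
    linarith

theorem main_ineq {l : ℕ} (hl : 1 ≤ l) {k : ℝ} (hk : 0 < k) {u : ℝ} (hu : 0 ≤ u) :
    TT l u ≤ 2 - (2 + u) * Real.exp (-u) + (1 + 1 / k) * (-Real.log (1 - cc u ^ l) / l)
      + u * (cc k ^ l / (1 - cc k ^ l)) := by
  have h1 : TT l u ≤ ∫ s in (0 : ℝ)..u, W' l (1 + 1 / k) (cc k ^ l / (1 - cc k ^ l)) s := by
    unfold TT
    refine intervalIntegral.integral_mono_on hu ?_ ?_ (fun s hs => f_le hl hk hs.1)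
    · refine ContinuousOn.intervalIntegrable ?_
      rw [uIcc_of_le hu]; exact f_cont hl u
    · refine ContinuousOn.intervalIntegrable ?_
      rw [uIcc_of_le hu]; exact W'_cont hl _ _ u
  rw [intervalIntegral.integral_eq_sub_of_hasDerivAt (f := W l (1 + 1 / k)
    (cc k ^ l / (1 - cc k ^ l)))] at h1
  · have h2 : W l (1 + 1 / k) (cc k ^ l / (1 - cc k ^ l)) 0 = 0 := by
      unfold W
      have h3 : cc 0 = 0 := by unfold cc; simp
      rw [h3, zero_pow (by omega)]
      simp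
    rw [h2, sub_zero] at h1
    exact h1
  · intro s hs
    rw [uIcc_of_le hu] at hs
    exact W_deriv hl _ _ hs.1
  · refine ContinuousOn.intervalIntegrable ?_
    rw [uIcc_of_le hu]; exact W'_cont hl _ _ u

theorem u_le {l : ℕ} (hl : 1 ≤ l) {u : ℝ} (hu : 0 ≤ u) : u / l ≤ TT l u := by
  have h1 : (∫ s in (0 : ℝ)..u, (1 / l : ℝ)) ≤ TT l u := by
    unfold TT
    refine intervalIntegral.integral_mono_on hu (by simp) ?_ ?_
    · refine ContinuousOn.intervalIntegrable ?_
      rw [uIcc_of_le hu]; exact f_cont hl u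
    · intro s hs
      have h2 := PP_ge hl (cc_nonneg hs.1)
      exact one_div_le_one_div_of_le (by linarith) (PP_le (cc_nonneg hs.1) (cc_lt_one hs.1).le)
  rw [intervalIntegral.integral_const, smul_eq_mul, sub_zero, mul_one_div] at h1
  exact h1

theorem t_AA : S_AA := by
  intro ε hε
  set ρ : ℝ := 1 / 2 - min ε (1 / 4) with hρ
  have hm1 : 0 < min ε (1 / 4) := lt_min hε (by norm_num)
  have hm2 : min ε (1 / 4) ≤ 1 / 4 := min_le_right _ _
  have hm3 : min ε (1 / 4) ≤ ε := min_le_left _ _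
  have hρ0 : 0 < ρ := by rw [hρ]; linarith
  have hρ1 : ρ < 1 / 2 := by rw [hρ]; linarith
  set lam := -Real.log ρ with hlam
  set mu := -Real.log (1 - ρ) with hmu
  have hmu0 : 0 < mu := by
    have := Real.log_neg (x := 1 - ρ) (by linarith) (by linarith)
    rw [hmu]; linarith
  have hml : mu < lam := by
    have := Real.log_lt_log hρ0 (show ρ < 1 - ρ by linarith)
    rw [hmu, hlam]; linarith
  have hlam0 : 0 < lam := hmu0.trans hml
  set k := mu / (lam - mu) + 1 with hk
  have hk0 : 0 < k := by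
    have : 0 < mu / (lam - mu) := div_pos hmu0 (by linarith)
    rw [hk]; linarith
  have hkc : (1 + 1 / k) * mu < lam := by
    have h1 : mu / k < lam - mu := by
      rw [div_lt_iff₀ hk0, hk, mul_add, mul_div_cancel₀ _ (by linarith : lam - mu ≠ 0)]
      linarith
    have h2 : (1 + 1 / k) * mu = mu + mu / k := by ring
    linarith
  have hy0 := cc_nonneg hk0.le
  have hy1 := cc_lt_one hk0.le
  -- limits
  have l1 : Tendsto (fun l : ℕ => lam / (1 + lam / (l : ℝ))) atTop (𝓝 (lam / (1 + 0))) :=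
    tendsto_const_nhds.div (tendsto_const_nhds.add (tendsto_const_div_atTop_nhds_zero_nat lam))
      (by norm_num)
  have l2 : Tendsto (fun l : ℕ => (l : ℝ) ^ 2 * cc k ^ l) atTop (𝓝 0) :=
    tendsto_pow_const_mul_const_pow_of_abs_lt_one 2 (by rw [abs_of_nonneg hy0]; exact hy1)
  have l3 : Tendsto (fun l : ℕ => 1 - cc k ^ l) atTop (𝓝 (1 - 0)) :=
    tendsto_const_nhds.sub (tendsto_pow_atTop_nhds_zero_of_lt_one hy0 hy1)
  have l4 : Tendsto (fun l : ℕ => (1 + 1 / k) * mu + 2 * ((l : ℝ) ^ 2 * cc k ^ l / (1 - cc k ^ l)))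
      atTop (𝓝 ((1 + 1 / k) * mu + 2 * (0 / (1 - 0)))) :=
    tendsto_const_nhds.add ((l2.div l3 (by norm_num)).const_mul 2)
  have l5 := l4.eventually_lt l1 (by simpa using hkc)
  obtain ⟨L, hL⟩ := (l5.and (eventually_ge_atTop 1)).exists_forall_of_atTop
  refine ⟨L, fun l hlL u hu hTT => ?_⟩
  obtain ⟨h6, hl⟩ := hL l hlL
  have hl' : (1 : ℝ) ≤ l := by exact_mod_cast hl
  by_contra hcon
  push Not at hcon
  have hcu : cc u ^ l ≤ ρ := by rw [hρ]; linarith
  have h7 := main_ineq hl hk0 hu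
  rw [hTT] at h7
  have h8 := u_le hl hu
  rw [hTT, div_le_iff₀ (by linarith)] at h8
  have h9 : 1 - cc u ≤ (2 + u) * Real.exp (-u) := by
    have : 1 - cc u = (1 + u) * Real.exp (-u) := by unfold cc; ring
    have h10 := (Real.exp_pos (-u)).le
    nlinarith
  -- lower bound
  have h10 : cc u ≤ Real.exp (-(lam / l)) := by
    have h11 : cc u ^ l ≤ Real.exp (-(lam / l)) ^ l := by
      rw [← Real.exp_nat_mul]
      have : (l : ℝ) * -(lam / l) = Real.log ρ := by
        rw [hlam]; field_simp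
      rw [this, Real.exp_log hρ0]
      exact hcu
    exact le_of_pow_le_pow_left₀ (by omega) (Real.exp_pos _).le h11
  have h11 : Real.exp (-(lam / l)) ≤ 1 / (1 + lam / l) := by
    rw [Real.exp_neg, inv_eq_one_div]
    refine one_div_le_one_div_of_le (by positivity) ?_
    have := Real.add_one_le_exp (lam / l)
    linarith
  have h12 : lam / (1 + lam / l) ≤ l * (1 - cc u) := by
    have h13 : (0 : ℝ) < 1 + lam / l := by positivity
    have h14 : lam / (1 + lam / (l : ℝ)) = l * (1 - 1 / (1 + lam / l)) := by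
      field_simp
      ring
    rw [h14]
    exact mul_le_mul_of_nonneg_left (by linarith) (by linarith)
  -- upper bound
  have h15 : -Real.log (1 - cc u ^ l) ≤ mu := by
    have := Real.log_le_log (show 0 < 1 - ρ by linarith) (show 1 - ρ ≤ 1 - cc u ^ l by linarith)
    rw [hmu]; linarith
  have hη : 0 ≤ cc k ^ l / (1 - cc k ^ l) :=
    div_nonneg (pow_nonneg hy0 _) (by
      have := pow_lt_one₀ hy0 hy1 (show l ≠ 0 by omega)
      linarith)
  have h16 : l * (1 - cc u) ≤ (1 + 1 / k) * mu +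
      2 * ((l : ℝ) ^ 2 * cc k ^ l / (1 - cc k ^ l)) := by
    have h17 : 1 - cc u ≤ (1 + 1 / k) * (-Real.log (1 - cc u ^ l) / l)
        + u * (cc k ^ l / (1 - cc k ^ l)) := by linarith
    have h18 : u * (cc k ^ l / (1 - cc k ^ l)) ≤ (2 * l) * (cc k ^ l / (1 - cc k ^ l)) :=
      mul_le_mul_of_nonneg_right h8 hη
    have h19 : (1 + 1 / k) * (-Real.log (1 - cc u ^ l) / l) ≤ (1 + 1 / k) * (mu / l) :=
      mul_le_mul_of_nonneg_left (div_le_div_of_nonneg_right h15 (by linarith)) (by positivity)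
    have h20 : l * (1 - cc u) ≤ l * ((1 + 1 / k) * (mu / l)
        + (2 * l) * (cc k ^ l / (1 - cc k ^ l))) :=
      mul_le_mul_of_nonneg_left (by linarith) (by linarith)
    have h21 : (l : ℝ) * ((1 + 1 / k) * (mu / l) + (2 * l) * (cc k ^ l / (1 - cc k ^ l)))
        = (1 + 1 / k) * mu + 2 * ((l : ℝ) ^ 2 * cc k ^ l / (1 - cc k ^ l)) := by
      have h22 : (l : ℝ) * ((1 + 1 / k) * (mu / l)) = (1 + 1 / k) * mu := by
        field_simp
      rw [mul_add, h22]
      ring
    rw [h21] at h20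
    exact h20
  linarith

end Pool.Agent.X269.SD
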